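import Mathlib
import Pool.Agent.THS.StmtsL

/-!
# Squad THS, row SHM (helper27): the calculus of short sums.
-/

set_option autoImplicit false

namespace Pool.Agent.THS.H27

open Pool.Agent.THS

theorem short_of_fintype {K : Type} [Field K] (v : AbsoluteValue K ℝ) {ι : Type} [Fintype ι]
    {c : ℕ} (hc : Fintype.card ι = c) {ε : ℝ} {F : ℤ → ℤ → K} (A B : ι → ℤ → K)
    (hA : ∀ s i, v (A s i) ≤ 1) (hB : ∀ s i, v (B s i) ≤ 1)
    (h : ∀ i j, v (F i j - ∑ s, A s i * B s j) ≤ ε) : Short v c ε F := by
  subst hc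
  refine ⟨fun s => A ((Fintype.equivFin ι).symm s), fun s => B ((Fintype.equivFin ι).symm s),
    fun s i => hA _ i, fun s i => hB _ i, fun i j => ?_⟩
  have e : ∑ s : Fin (Fintype.card ι), A ((Fintype.equivFin ι).symm s) i *
      B ((Fintype.equivFin ι).symm s) j = ∑ s, A s i * B s j :=
    Equiv.sum_comp (Fintype.equivFin ι).symm (fun s => A s i * B s j)
  rw [e]
  exact h i j

theorem shm : ShmStatement := by
  intro K _ v hv
  refine ⟨?_, ?_, ?_, ?_, ?_⟩
  · rintro c c' ε ε' F hcc hεε ⟨A, B, hA, hB, h⟩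
    obtain ⟨t, rfl⟩ := Nat.exists_eq_add_of_le hcc
    refine short_of_fintype v (ι := Fin c ⊕ Fin t) (by simp)
      (Sum.elim A (fun _ _ => 0)) (Sum.elim B (fun _ _ => 0)) ?_ ?_ ?_
    · rintro (s | s) i
      · exact hA s i
      · simp
    · rintro (s | s) i
      · exact hB s i
      · simp
    · intro i j
      rw [Fintype.sum_sum_type]
      simp only [Sum.elim_inl, Sum.elim_inr, mul_zero, Finset.sum_const_zero, add_zero]
      exact (h i j).trans hεε
  · rintro c c' ε F F' ⟨A, B, hA, hB, h⟩ ⟨A', B', hA', hB', h'⟩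
    refine short_of_fintype v (ι := Fin c ⊕ Fin c') (by simp) (Sum.elim A A') (Sum.elim B B')
      ?_ ?_ ?_
    · rintro (s | s) i
      · exact hA s i
      · exact hA' s i
    · rintro (s | s) i
      · exact hB s i
      · exact hB' s i
    · intro i j
      rw [Fintype.sum_sum_type]
      simp only [Sum.elim_inl, Sum.elim_inr]
      have e : F i j + F' i j - (∑ s, A s i * B s j + ∑ s, A' s i * B' s j) =
        (F i j - ∑ s, A s i * B s j) + (F' i j - ∑ s, A' s i * B' s j) := by ring
      rw [e]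
      exact (hv _ _).trans (max_le (h i j) (h' i j))
  · rintro c ε y F hε hy ⟨A, B, hA, hB, h⟩
    refine ⟨fun s i => y * A s i, B, fun s i => ?_, hB, fun i j => ?_⟩
    · rw [map_mul]
      exact mul_le_one₀ hy (apply_nonneg v _) (hA s i)
    · have e : y * F i j - ∑ s, y * A s i * B s j = y * (F i j - ∑ s, A s i * B s j) := by
        rw [mul_sub, Finset.mul_sum]
        congr 1
        exact Finset.sum_congr rfl fun s _ => by ring
      rw [e, map_mul]
      calc v y * v (F i j - ∑ s, A s i * B s j) ≤ 1 * ε :=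
            mul_le_mul hy (h i j) (apply_nonneg v _) zero_le_one
        _ = ε := one_mul ε
  · rintro c c' ε δ F F' hε hεδ hδ hF hF' ⟨A, B, hA, hB, h⟩ ⟨A', B', hA', hB', h'⟩
    refine short_of_fintype v (ι := Fin c × Fin c') (by simp)
      (fun s i => A s.1 i * A' s.2 i) (fun s i => B s.1 i * B' s.2 i) ?_ ?_ ?_
    · intro s i
      rw [map_mul]
      exact mul_le_one₀ (hA _ _) (apply_nonneg v _) (hA' _ _)
    · intro s i
      rw [map_mul]
      exact mul_le_one₀ (hB _ _) (apply_nonneg v _) (hB' _ _)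
    · intro i j
      have e1 : ∑ s : Fin c × Fin c', A s.1 i * A' s.2 i * (B s.1 j * B' s.2 j) =
          (∑ s, A s i * B s j) * (∑ s, A' s i * B' s j) := by
        rw [Finset.sum_mul_sum, Fintype.sum_prod_type]
        exact Finset.sum_congr rfl fun s _ => Finset.sum_congr rfl fun t _ => by ring
      have hS : v (∑ s, A s i * B s j) ≤ δ := by
        have e2 : (∑ s, A s i * B s j) = F i j + -(F i j - ∑ s, A s i * B s j) := by ring
        rw [e2]
        refine (hv _ _).trans (max_le (hF i j) ?_)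
        rw [AbsoluteValue.map_neg]
        exact (h i j).trans hεδ
      have hδ0 : 0 ≤ δ := hε.trans hεδ
      rw [e1]
      have e3 : F i j * F' i j - (∑ s, A s i * B s j) * (∑ s, A' s i * B' s j) =
          (F i j - ∑ s, A s i * B s j) * F' i j +
            (∑ s, A s i * B s j) * (F' i j - ∑ s, A' s i * B' s j) := by ring
      rw [e3]
      refine (hv _ _).trans (max_le ?_ ?_)
      · rw [map_mul]
        exact mul_le_mul (h i j) (hF' i j) (apply_nonneg v _) hε
      · rw [map_mul, mul_comm ε δ]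
        exact mul_le_mul hS (h' i j) (apply_nonneg v _) hδ0
  · rintro c ε F p q ⟨A, B, hA, hB, h⟩
    exact ⟨fun s i => A s (p i), fun s i => B s (q i), fun s i => hA _ _, fun s i => hB _ _,
      fun i j => h (p i) (q j)⟩

end Pool.Agent.THS.H27
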