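import Pool.Agent.THS.StmtsT

/-! Row GSO of the table ths. -/

set_option autoImplicit false

namespace Pool.Agent.THS.H27

open Pool.Agent.THS

theorem sum_nat : Summable (fun n : ℕ => Real.exp (-(n : ℝ))) := Real.summable_exp_neg_nat

theorem sum_int : Summable (fun n : ℤ => Real.exp (-|(n : ℝ)|)) := by
  refine Summable.of_nat_of_neg ?_ ?_
  · refine sum_nat.congr fun n => ?_
    push_cast
    rw [abs_of_nonneg (Nat.cast_nonneg n)]
  · refine sum_nat.congr fun n => ?_
    push_cast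
    rw [abs_neg, abs_of_nonneg (Nat.cast_nonneg n)]

theorem gso : GsoStatement := by
  intro c B hc
  refine Summable.of_nonneg_of_le (fun n => (Real.exp_pos _).le) (fun n => ?_)
    (sum_int.mul_left (Real.exp ((B + 1) ^ 2 / (4 * c))))
  rw [← Real.exp_add]
  refine Real.exp_le_exp.mpr ?_
  have h1 : (n : ℝ) ^ 2 = |(n : ℝ)| ^ 2 := (sq_abs _).symm
  rw [h1]
  set t := |(n : ℝ)|
  have h2 : (B + 1) ^ 2 / (4 * c) + -t - (-c * t ^ 2 + B * t) =
      (2 * c * t - (B + 1)) ^ 2 / (4 * c) := by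
    field_simp
    ring
  have h3 : 0 ≤ (2 * c * t - (B + 1)) ^ 2 / (4 * c) := by positivity
  linarith

end Pool.Agent.THS.H27
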