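import Pool.Agent.THS.StmtsN

/-! Row NPP of the table ths. -/

set_option autoImplicit false

namespace Pool.Agent.THS.H27

open Pool.Agent.THS

theorem npp_key {K ι : Type} [Field K] (x : ℕ → ι → K) (i : ℕ → ι) (hi : ∀ k, x k (i k) ≠ 0)
    (a b : ℕ) (h : ∀ j, x a j / x a (i a) = x b j / x b (i b)) :
    ∃ l : K, l ≠ 0 ∧ ∀ c, x b c = l * x a c := by
  refine ⟨x b (i b) / x a (i a), div_ne_zero (hi b) (hi a), fun c => ?_⟩
  have h1 := h c
  have ha := hi a
  have hb := hi b
  rw [div_eq_div_iff ha hb] at h1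
  field_simp
  rw [mul_comm (x b (i b)) (x a c), ← h1]

theorem npp (h : NufStatement) : NppStatement := by
  intro ι _ d H
  obtain ⟨B0, hB0⟩ := h d H
  refine ⟨Fintype.card ι * B0 ^ Fintype.card ι, ?_⟩
  intro K _ _ hK x hx hH
  obtain ⟨hF, hc⟩ := hB0 K hK
  classical
  have hcard : hF.toFinset.card ≤ B0 := by
    rw [← Set.ncard_eq_toFinset_card _ hF]
    exact hc
  choose i hi using fun k => Function.ne_iff.mp (hx k)
  have hi' : ∀ k, x k (i k) ≠ 0 := fun k => by simpa using hi k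
  have hmem : ∀ k j, x k j / x k (i k) ∈ hF.toFinset := by
    intro k j
    rw [Set.Finite.mem_toFinset, Set.mem_setOf_eq, Height.mulHeight₁_div_eq_mulHeight]
    refine le_trans ?_ (hH k)
    have e : ![x k j, x k (i k)] = x k ∘ ![j, i k] := by
      funext t
      refine Fin.cases ?_ (fun s => ?_) t
      · rfl
      · refine Fin.cases ?_ (fun r => r.elim0) s
        rfl
    rw [e]
    exact Height.mulHeight_comp_le _ _
  have hlt : Fintype.card (ι × (ι → hF.toFinset)) <
      Fintype.card (Fin (Fintype.card ι * B0 ^ Fintype.card ι + 1)) := by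
    rw [Fintype.card_prod, Fintype.card_fun, Fintype.card_coe, Fintype.card_fin]
    exact Nat.lt_succ_of_le (Nat.mul_le_mul_left _ (Nat.pow_le_pow_left hcard _))
  obtain ⟨a, b, hab, hf⟩ := Fintype.exists_ne_map_eq_of_card_lt
    (fun k : Fin (Fintype.card ι * B0 ^ Fintype.card ι + 1) =>
      ((i k, fun j => ⟨x k j / x k (i k), hmem k j⟩) : ι × (ι → hF.toFinset))) hlt
  have hq : ∀ j, x (a : ℕ) j / x (a : ℕ) (i a) = x (b : ℕ) j / x (b : ℕ) (i b) := by
    intro j
    have h1 := congrArg Prod.snd hf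
    have h2 := congrFun h1 j
    exact congrArg Subtype.val h2
  have hne : (a : ℕ) ≠ b := fun h => hab (Fin.ext h)
  rcases lt_or_gt_of_ne hne with hlt' | hlt'
  · exact ⟨a, b, hlt', Nat.lt_succ_iff.mp b.2, npp_key x i hi' a b hq⟩
  · exact ⟨b, a, hlt', Nat.lt_succ_iff.mp a.2, npp_key x i hi' b a fun j => (hq j).symm⟩

end Pool.Agent.THS.H27
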